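import Mathlib

/-! Lattice identities and the lattice `Δ(L)` of diagonal sublattices of `L × L`
(problem MP_bb8c7b_al). -/

set_option autoImplicit false

namespace Pool.Agent.H7.DiagLat

/-- Lattice terms in the variables `x_0, x_1, x_2, …`. -/
inductive Term : Type
  | var (n : ℕ) : Term
  | inf (s t : Term) : Term
  | sup (s t : Term) : Term

/-- The value of a term in a lattice. -/
def Term.eval {L : Type*} [Lattice L] (v : ℕ → L) : Term → L
  | .var n => v n
  | .inf s t => s.eval v ⊓ t.eval v
  | .sup s t => s.eval v ⊔ t.eval v

/-- The lattice `L` satisfies the identity `e.1 = e.2`. -/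
def Satisfies (L : Type*) [Lattice L] (e : Term × Term) : Prop :=
  ∀ v : ℕ → L, e.1.eval v = e.2.eval v

/-- The lattice `L` belongs to the variety defined by the set `E` of identities. -/
def InVariety (E : Set (Term × Term)) (L : Type*) [Lattice L] : Prop :=
  ∀ e ∈ E, Satisfies L e

/-- The diagonal of `L × L`. -/
def diagonal (L : Type*) [Lattice L] : Sublattice (L × L) where
  carrier := {p | p.1 = p.2}
  supClosed' := by
    rintro ⟨a, b⟩ h ⟨c, d⟩ h'
    have h1 : a = b := h
    have h2 : c = d := h'
    subst h1; subst h2
    rfl
  infClosed' := by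
    rintro ⟨a, b⟩ h ⟨c, d⟩ h'
    have h1 : a = b := h
    have h2 : c = d := h'
    subst h1; subst h2
    rfl

/-- The lattice `Δ(L)` of diagonal sublattices of `L × L`, ordered by inclusion: the interval
above the diagonal in the lattice of all sublattices of `L × L`. -/
abbrev Delta (L : Type*) [Lattice L] : Type _ := Set.Ici (diagonal L)

end Pool.Agent.H7.DiagLat
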