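import Mathlib
import Pool.Agent.H7.DiagLat.Defs

/-! Diagonal sublattices of finite lattices in the variety generated by `N₅`. -/

set_option autoImplicit false

namespace Pool.Agent.H7.DiagLat

section order

variable {K : Type*} [Lattice K]

/-- The identities used. -/
structure Good (K : Type*) [Lattice K] : Prop where
  i1 : ∀ c x y z w : K, c ⊓ (x ⊔ y) ⊓ (z ⊔ w) ≤
    (c ⊓ x) ⊔ (c ⊓ y) ⊔ ((c ⊓ z) ⊔ (c ⊓ w)) ⊔
      ((c ⊓ ((x ⊓ z) ⊔ (y ⊓ w))) ⊔ (c ⊓ ((x ⊓ w) ⊔ (y ⊓ z))))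
  i3 : ∀ c u v x y : K, c ⊓ ((u ⊓ (x ⊔ y)) ⊔ v) ≤
    (c ⊓ u) ⊔ (c ⊓ v) ⊔ ((c ⊓ ((u ⊓ x) ⊔ v)) ⊔ (c ⊓ ((u ⊓ y) ⊔ v)))
  sd : ∀ x y z : K, x ⊓ (y ⊔ z) ≤ y ⊔ (x ⊓ (z ⊔ (x ⊓ y)))

lemma irr_le {j s t : K} (hj : SupIrred j) (hs : s ≤ j) (ht : t ≤ j) (h : j ≤ s ⊔ t) :
    j ≤ s ∨ j ≤ t := by
  have h1 : s ⊔ t = j := le_antisymm (sup_le hs ht) h
  rcases hj.2 h1 with h2 | h2
  · left; rw [h2]
  · right; rw [h2]

/-- `{a, b}` is the least nontrivial join cover of `j` (or `a = b = j` is join prime). -/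
structure Cov (j a b : K) : Prop where
  pa : SupPrime a
  pb : SupPrime b
  le : j ≤ a ⊔ b
  cov : ∀ x y : K, j ≤ x ⊔ y → j ≤ x ∨ j ≤ y ∨ (a ≤ x ∧ b ≤ y) ∨ (a ≤ y ∧ b ≤ x)

lemma exists_cov [Finite K] (G : Good K) {j : K} (hj : SupIrred j) : ∃ a b, Cov j a b := by
  classical
  by_cases hp : SupPrime j
  · exact ⟨j, j, hp, hp, le_sup_left, fun x y h => by
      rcases hp.2 h with h | h
      · exact Or.inl h
      · exact Or.inr (Or.inl h)⟩
  · let P : Set (K × K) := {p | j ≤ p.1 ⊔ p.2 ∧ ¬ j ≤ p.1 ∧ ¬ j ≤ p.2}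
    have hne : P.Nonempty := by
      have h1 : ¬ ∀ ⦃b c : K⦄, j ≤ b ⊔ c → j ≤ b ∨ j ≤ c := fun h => hp ⟨hj.1, h⟩
      push Not at h1
      obtain ⟨b, c, h2, h3, h4⟩ := h1
      exact ⟨(b, c), h2, h3, h4⟩
    obtain ⟨⟨a, b⟩, hab, hmin⟩ := (Set.toFinite P).exists_minimal hne
    obtain ⟨hab1, hab2, hab3⟩ : j ≤ a ⊔ b ∧ ¬ j ≤ a ∧ ¬ j ≤ b := hab
    have hmin' : ∀ z w : K, (j ≤ z ⊔ w ∧ ¬ j ≤ z ∧ ¬ j ≤ w) → z ≤ a → w ≤ b → a ≤ z ∧ b ≤ w := by
      intro z w hzw hza hwb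
      have := hmin (y := (z, w)) hzw ⟨hza, hwb⟩
      exact ⟨this.1, this.2⟩
    have hprime : ∀ a b : K, j ≤ a ⊔ b → ¬ j ≤ a → ¬ j ≤ b →
        (∀ x, x ≤ a → j ≤ x ⊔ b → a ≤ x) → SupPrime a := by
      intro a b h1 h2 h3 h4
      refine ⟨fun h5 => ?_, ?_⟩
      · have h6 : a ≤ a ⊓ b := h5 inf_le_left
        exact h3 (h1.trans (sup_le (h6.trans inf_le_right) le_rfl))
      · intro x y hxy
        have h5 := G.i3 j a b x y
        rw [inf_eq_left.mpr hxy, inf_eq_left.mpr h1] at h5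
        rcases irr_le hj (sup_le inf_le_left inf_le_left) (sup_le inf_le_left inf_le_left) h5
          with h6 | h6
        · rcases irr_le hj inf_le_left inf_le_left h6 with h7 | h7
          · exact absurd (h7.trans inf_le_right) h2
          · exact absurd (h7.trans inf_le_right) h3
        · rcases irr_le hj inf_le_left inf_le_left h6 with h7 | h7
          · left
            exact (h4 _ inf_le_left (h7.trans inf_le_right)).trans inf_le_right
          · right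
            exact (h4 _ inf_le_left (h7.trans inf_le_right)).trans inf_le_right
    refine ⟨a, b, ?_, ?_, hab1, ?_⟩
    · refine hprime a b hab1 hab2 hab3 (fun x hx h => ?_)
      exact (hmin' x b ⟨h, fun h' => hab2 (h'.trans hx), hab3⟩ hx le_rfl).1
    · refine hprime b a (by rwa [sup_comm]) hab3 hab2 (fun x hx h => ?_)
      exact (hmin' a x ⟨by rwa [sup_comm], hab2, fun h' => hab3 (h'.trans hx)⟩ le_rfl hx).2
    · intro x y hxy
      by_cases hx : j ≤ x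
      · exact Or.inl hx
      by_cases hy : j ≤ y
      · exact Or.inr (Or.inl hy)
      right; right
      have h5 := G.i1 j a b x y
      rw [inf_eq_left.mpr hab1, inf_eq_left.mpr hxy] at h5
      rcases irr_le hj (sup_le (sup_le inf_le_left inf_le_left) (sup_le inf_le_left inf_le_left))
        (sup_le inf_le_left inf_le_left) h5 with h6 | h6
      · rcases irr_le hj (sup_le inf_le_left inf_le_left) (sup_le inf_le_left inf_le_left) h6
          with h7 | h7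
        · rcases irr_le hj inf_le_left inf_le_left h7 with h8 | h8
          · exact absurd (h8.trans inf_le_right) hab2
          · exact absurd (h8.trans inf_le_right) hab3
        · rcases irr_le hj inf_le_left inf_le_left h7 with h8 | h8
          · exact absurd (h8.trans inf_le_right) hx
          · exact absurd (h8.trans inf_le_right) hy
      · rcases irr_le hj inf_le_left inf_le_left h6 with h7 | h7
        · left
          have h8 := hmin' (a ⊓ x) (b ⊓ y) ⟨h7.trans inf_le_right,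
            fun h => hab2 (h.trans inf_le_left), fun h => hab3 (h.trans inf_le_left)⟩
            inf_le_left inf_le_left
          exact ⟨h8.1.trans inf_le_right, h8.2.trans inf_le_right⟩
        · right
          have h8 := hmin' (a ⊓ y) (b ⊓ x) ⟨h7.trans inf_le_right,
            fun h => hab2 (h.trans inf_le_left), fun h => hab3 (h.trans inf_le_left)⟩
            inf_le_left inf_le_left
          exact ⟨h8.1.trans inf_le_right, h8.2.trans inf_le_right⟩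

end order

section finite

variable {K : Type*} [Lattice K]

/-- `S` contains the diagonal. -/
def IsDiag (S : Sublattice (K × K)) : Prop := ∀ x : K, (x, x) ∈ S

lemma IsDiag.inf {S T : Sublattice (K × K)} (hS : IsDiag S) (hT : IsDiag T) : IsDiag (S ⊓ T) :=
  fun x => ⟨hS x, hT x⟩

lemma IsDiag.mono {S T : Sublattice (K × K)} (hS : IsDiag S) (h : S ≤ T) : IsDiag T :=
  fun x => h (hS x)

lemma IsDiag.sup {S T : Sublattice (K × K)} (hS : IsDiag S) : IsDiag (S ⊔ T) :=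
  hS.mono le_sup_left

open scoped Classical in
/-- The least `x` with `(x, y) ∈ S`. -/
noncomputable def fm (S : Sublattice (K × K)) (y : K) : K :=
  if h : ∃ m, (m, y) ∈ S ∧ ∀ x, (x, y) ∈ S → m ≤ x then h.choose else y

lemma exists_fm [Finite K] {S : Sublattice (K × K)} (hS : IsDiag S) (y : K) :
    ∃ m, (m, y) ∈ S ∧ ∀ x, (x, y) ∈ S → m ≤ x := by
  obtain ⟨m, hm, hmin⟩ := (Set.toFinite {x : K | (x, y) ∈ S}).exists_minimal ⟨y, hS y⟩
  refine ⟨m, hm, fun x hx => ?_⟩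
  have h1 : (m ⊓ x, y) ∈ S := by
    have := S.inf_mem hm hx
    simpa using this
  exact (hmin h1 inf_le_left).trans inf_le_right

lemma fm_mem [Finite K] {S : Sublattice (K × K)} (hS : IsDiag S) (y : K) : (fm S y, y) ∈ S := by
  unfold fm
  rw [dif_pos (exists_fm hS y)]
  exact (exists_fm hS y).choose_spec.1

lemma fm_le [Finite K] {S : Sublattice (K × K)} (hS : IsDiag S) {x y : K} (h : (x, y) ∈ S) :
    fm S y ≤ x := by
  unfold fm
  rw [dif_pos (exists_fm hS y)]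
  exact (exists_fm hS y).choose_spec.2 x h

variable [Finite K] {S T : Sublattice (K × K)}

lemma fm_le_self (hS : IsDiag S) (y : K) : fm S y ≤ y := fm_le hS (hS y)

/-- For `i ≤ y` and `(x, y) ∈ S`, `fm S i ≤ x`. -/
lemma fm_le_of_le (hS : IsDiag S) {x y i : K} (h : (x, y) ∈ S) (hi : i ≤ y) : fm S i ≤ x := by
  have h1 : (x ⊓ i, i) ∈ S := by
    have := S.inf_mem h (hS i)
    simpa [inf_eq_right.mpr hi] using this
  exact (fm_le hS h1).trans inf_le_left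

lemma fm_mono (hS : IsDiag S) {y y' : K} (h : y ≤ y') : fm S y ≤ fm S y' :=
  fm_le_of_le hS (fm_mem hS y') h

lemma fm_sup_le (hS : IsDiag S) (y y' : K) : fm S (y ⊔ y') ≤ fm S y ⊔ fm S y' :=
  fm_le hS (S.sup_mem (fm_mem hS y) (fm_mem hS y'))

lemma fm_anti (hS : IsDiag S) (h : S ≤ T) (y : K) : fm T y ≤ fm S y :=
  fm_le (hS.mono h) (h (fm_mem hS y))

lemma fm_inf (hS : IsDiag S) (hT : IsDiag T) (y : K) : fm (S ⊓ T) y = fm S y ⊔ fm T y := by
  apply le_antisymm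
  · apply fm_le (hS.inf hT)
    constructor
    · have := S.sup_mem (fm_mem hS y) (hS (fm T y))
      simpa [sup_eq_left.mpr (fm_le_self hT y)] using this
    · have := T.sup_mem (hT (fm S y)) (fm_mem hT y)
      simpa [sup_eq_right.mpr (fm_le_self hS y)] using this
  · exact sup_le (fm_anti (hS.inf hT) inf_le_left y) (fm_anti (hS.inf hT) inf_le_right y)

lemma fm_sup_le_inf (hS : IsDiag S) (hT : IsDiag T) (y : K) :
    fm (S ⊔ T) y ≤ fm S y ⊓ fm T y :=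
  le_inf (fm_anti hS le_sup_left y) (fm_anti hT le_sup_right y)

lemma fm_sup_le_cov (hS : IsDiag S) (hT : IsDiag T) {j a b : K} (h : Cov j a b) :
    fm (S ⊔ T) j ≤ fm S j ⊓ fm T j ⊓ (fm (S ⊔ T) a ⊔ fm (S ⊔ T) b) := by
  refine le_inf (fm_sup_le_inf hS hT j) ?_
  exact (fm_mono hS.sup h.le).trans (fm_sup_le hS.sup a b)

/-- An upper bound for `S ⊔ T`. -/
noncomputable def upper (S T : Sublattice (K × K)) : Sublattice (K × K) where
  carrier := {q | (∀ p, SupPrime p → p ≤ q.2 → fm S p ⊓ fm T p ≤ q.1) ∧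
    ∀ j a b, Cov j a b → j ≤ q.2 →
      fm S j ⊓ fm T j ⊓ ((fm S a ⊓ fm T a) ⊔ (fm S b ⊓ fm T b)) ≤ q.1}
  supClosed' := by
    rintro ⟨x, y⟩ ⟨h1, h2⟩ ⟨x', y'⟩ ⟨h1', h2'⟩
    refine ⟨fun p hp hpy => ?_, fun j a b hc hj => ?_⟩
    · rcases hp.2 hpy with h | h
      · exact (h1 p hp h).trans le_sup_left
      · exact (h1' p hp h).trans le_sup_right
    · rcases hc.cov _ _ hj with h | h | ⟨ha, hb⟩ | ⟨ha, hb⟩
      · exact (h2 j a b hc h).trans le_sup_left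
      · exact (h2' j a b hc h).trans le_sup_right
      · exact inf_le_right.trans (sup_le_sup (h1 a hc.pa ha) (h1' b hc.pb hb))
      · refine inf_le_right.trans ?_
        rw [sup_comm]
        exact sup_le_sup (h1 b hc.pb hb) (h1' a hc.pa ha)
  infClosed' := by
    rintro ⟨x, y⟩ ⟨h1, h2⟩ ⟨x', y'⟩ ⟨h1', h2'⟩
    refine ⟨fun p hp hpy => le_inf ?_ ?_, fun j a b hc hj => le_inf ?_ ?_⟩
    · exact h1 p hp (hpy.trans inf_le_left)
    · exact h1' p hp (hpy.trans inf_le_right)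
    · exact h2 j a b hc (hj.trans inf_le_left)
    · exact h2' j a b hc (hj.trans inf_le_right)

lemma le_upper (hS : IsDiag S) (hT : IsDiag T) : S ⊔ T ≤ upper S T := by
  apply sup_le
  · rintro ⟨x, y⟩ h
    exact ⟨fun p _ hp => inf_le_left.trans (fm_le_of_le hS h hp),
      fun j a b _ hj => inf_le_left.trans (inf_le_left.trans (fm_le_of_le hS h hj))⟩
  · rintro ⟨x, y⟩ h
    exact ⟨fun p _ hp => inf_le_right.trans (fm_le_of_le hT h hp),
      fun j a b _ hj => inf_le_left.trans (inf_le_right.trans (fm_le_of_le hT h hj))⟩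

lemma le_fm_sup_prime (hS : IsDiag S) (hT : IsDiag T) {p : K} (hp : SupPrime p) :
    fm S p ⊓ fm T p ≤ fm (S ⊔ T) p :=
  (le_upper hS hT (fm_mem hS.sup p)).1 p hp le_rfl

lemma le_fm_sup_cov (hS : IsDiag S) (hT : IsDiag T) {j a b : K} (h : Cov j a b) :
    fm S j ⊓ fm T j ⊓ ((fm S a ⊓ fm T a) ⊔ (fm S b ⊓ fm T b)) ≤ fm (S ⊔ T) j :=
  (le_upper hS hT (fm_mem hS.sup j)).2 j a b h le_rfl

/-- Comparison of `fm S` and `fm T` can be checked on join irreducible elements. -/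
lemma fm_le_fm (hS : IsDiag S) (hT : IsDiag T)
    (h : ∀ j : K, SupIrred j → fm S j ≤ fm T j) (y : K) : fm S y ≤ fm T y := by
  induction y using WellFoundedLT.induction with
  | ind y ih =>
    by_cases hy : SupIrred y
    · exact h y hy
    · by_cases hm : IsMin y
      · exact (fm_le_self hS y).trans (hm (fm_le_self hT y))
      · have h1 : ¬ ∀ ⦃b c : K⦄, b ⊔ c = y → b = y ∨ c = y := fun h => hy ⟨hm, h⟩
        push Not at h1
        obtain ⟨b, c, hbc, hb, hc⟩ := h1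
        have hb' : b < y := lt_of_le_of_ne (hbc ▸ le_sup_left) hb
        have hc' : c < y := lt_of_le_of_ne (hbc ▸ le_sup_right) hc
        calc fm S y = fm S (b ⊔ c) := by rw [hbc]
          _ ≤ fm S b ⊔ fm S c := fm_sup_le hS b c
          _ ≤ fm T y := sup_le ((ih b hb').trans (fm_mono hT hb'.le))
              ((ih c hc').trans (fm_mono hT hc'.le))

end finite

/-- The iteration for the dual of the weak join-semidistributive law. -/
def yy {D : Type*} [Lattice D] (x y z : D) : ℕ → D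
  | 0 => y
  | n + 1 => y ⊓ (x ⊔ yy x z y n)

section main

variable {K : Type*} [Lattice K] [Finite K]

lemma yy_le {D : Type*} [Lattice D] (x y z : D) (n : ℕ) : yy x y z n ≤ y := by
  cases n with
  | zero => exact le_rfl
  | succ n => exact inf_le_left

omit [Finite K] in
lemma IsDiag.yy {X Y Z : Sublattice (K × K)} (hX : IsDiag X) (hY : IsDiag Y) (hZ : IsDiag Z)
    (n : ℕ) : IsDiag (yy X Y Z n) := by
  induction n generalizing Y Z with
  | zero => exact hY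
  | succ n ih => exact hY.inf hX.sup

variable {X Y Z : Sublattice (K × K)}

/-- Behaviour at join prime elements. -/
lemma prime_step (G : Good K) (hX : IsDiag X) (hY : IsDiag Y) (hZ : IsDiag Z) {p : K}
    (hp : SupPrime p) (n : ℕ) :
    fm X p ⊓ (fm Y p ⊔ fm Z p) ≤ fm (X ⊔ yy X Y Z (n + 2)) p := by
  have h2 : IsDiag (yy X Y Z (n + 2)) := hX.yy hY hZ _
  have h1 : IsDiag (yy X Z Y (n + 1)) := hX.yy hZ hY _
  have h0 : IsDiag (yy X Y Z n) := hX.yy hY hZ _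
  refine le_trans ?_ (le_fm_sup_prime hX h2 hp)
  refine le_inf inf_le_left ?_
  have e2 : fm (yy X Y Z (n + 2)) p = fm Y p ⊔ fm (X ⊔ yy X Z Y (n + 1)) p := fm_inf hY hX.sup p
  have e1 : fm (yy X Z Y (n + 1)) p = fm Z p ⊔ fm (X ⊔ yy X Y Z n) p := fm_inf hZ hX.sup p
  have l1 := le_fm_sup_prime hX h1 hp
  have l0 := le_fm_sup_prime hX h0 hp
  have l : fm Y p ≤ fm (yy X Y Z n) p := fm_anti h0 (yy_le _ _ _ _) p
  calc fm X p ⊓ (fm Y p ⊔ fm Z p) ≤ fm Y p ⊔ (fm X p ⊓ (fm Z p ⊔ (fm X p ⊓ fm Y p))) :=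
        G.sd _ _ _
    _ ≤ fm Y p ⊔ (fm X p ⊓ (fm Z p ⊔ (fm X p ⊓ fm (yy X Y Z n) p))) := by gcongr
    _ ≤ fm Y p ⊔ (fm X p ⊓ (fm Z p ⊔ fm (X ⊔ yy X Y Z n) p)) := by gcongr
    _ = fm Y p ⊔ (fm X p ⊓ fm (yy X Z Y (n + 1)) p) := by rw [e1]
    _ ≤ fm Y p ⊔ fm (X ⊔ yy X Z Y (n + 1)) p := by gcongr
    _ = fm (yy X Y Z (n + 2)) p := e2.symm

/-- The main computation. -/
lemma fm_main (G : Good K) (hX : IsDiag X) (hY : IsDiag Y) (hZ : IsDiag Z) (y : K) :
    fm (X ⊔ (Y ⊓ Z)) y ≤ fm (yy X Y Z 4) y := by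
  refine fm_le_fm hX.sup (hX.yy hY hZ _) ?_ y
  intro j hj
  obtain ⟨a, b, hc⟩ := exists_cov G hj
  set e : K := fm X j ⊓ ((fm X a ⊓ (fm Y a ⊔ fm Z a)) ⊔ (fm X b ⊓ (fm Y b ⊔ fm Z b))) with he
  have h4 : IsDiag (yy X Y Z 4) := hX.yy hY hZ _
  have h3 : IsDiag (yy X Z Y 3) := hX.yy hZ hY _
  have h2 : IsDiag (yy X Y Z 2) := hX.yy hY hZ _
  -- upper bound for the right side
  have hYZ := hY.inf hZ
  have up : fm (X ⊔ (Y ⊓ Z)) j ≤ e ⊓ (fm Y j ⊔ fm Z j) := by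
    have h5 := fm_sup_le_cov hX hYZ hc
    have h6 := fm_sup_le_inf hX hYZ a
    have h7 := fm_sup_le_inf hX hYZ b
    rw [fm_inf hY hZ] at h5 h6 h7
    refine h5.trans (le_inf (le_inf (inf_le_left.trans inf_le_left) ?_)
      (inf_le_left.trans inf_le_right))
    exact inf_le_right.trans (sup_le_sup h6 h7)
  -- lower bounds
  have e4 : fm (yy X Y Z 4) j = fm Y j ⊔ fm (X ⊔ yy X Z Y 3) j := fm_inf hY hX.sup j
  have e3 : fm (yy X Z Y 3) j = fm Z j ⊔ fm (X ⊔ yy X Y Z 2) j := fm_inf hZ hX.sup j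
  have key : ∀ (n : ℕ) (Y Z : Sublattice (K × K)), IsDiag Y → IsDiag Z →
      e ≤ fm X j ⊓ ((fm X a ⊓ (fm Y a ⊔ fm Z a)) ⊔ (fm X b ⊓ (fm Y b ⊔ fm Z b))) →
      e ⊓ fm (yy X Y Z (n + 2)) j ≤ fm (X ⊔ yy X Y Z (n + 2)) j := by
    intro n Y Z hY hZ heYZ
    have h5 : IsDiag (yy X Y Z (n + 2)) := hX.yy hY hZ _
    have ha := prime_step G hX hY hZ hc.pa n
    have hb := prime_step G hX hY hZ hc.pb n
    have ha' := ha.trans (fm_sup_le_inf hX h5 a)
    have hb' := hb.trans (fm_sup_le_inf hX h5 b)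
    refine le_trans ?_ (le_fm_sup_cov hX h5 hc)
    refine le_inf (le_inf (inf_le_left.trans (heYZ.trans inf_le_left)) inf_le_right) ?_
    exact inf_le_left.trans (heYZ.trans (inf_le_right.trans (sup_le_sup ha' hb')))
  have k2 := key 0 Y Z hY hZ le_rfl
  have k3 := key 1 Z Y hZ hY (by rw [he, sup_comm (fm Z a), sup_comm (fm Z b)])
  have l2 : fm Y j ≤ fm (yy X Y Z 2) j := fm_anti h2 (yy_le _ _ _ _) j
  refine up.trans ?_
  calc e ⊓ (fm Y j ⊔ fm Z j) ≤ fm Y j ⊔ (e ⊓ (fm Z j ⊔ (e ⊓ fm Y j))) := G.sd _ _ _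
    _ ≤ fm Y j ⊔ (e ⊓ (fm Z j ⊔ (e ⊓ fm (yy X Y Z 2) j))) := by gcongr
    _ ≤ fm Y j ⊔ (e ⊓ (fm Z j ⊔ fm (X ⊔ yy X Y Z 2) j)) := by gcongr
    _ = fm Y j ⊔ (e ⊓ fm (yy X Z Y 3) j) := by rw [e3]
    _ ≤ fm Y j ⊔ fm (X ⊔ yy X Z Y 3) j := by gcongr
    _ = fm (yy X Y Z 4) j := e4.symm

/-- The interchange of coordinates. -/
def swapHom (K : Type*) [Lattice K] : LatticeHom (K × K) (K × K) where
  toFun p := (p.2, p.1)
  map_sup' _ _ := rfl
  map_inf' _ _ := rfl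

omit [Finite K] in
lemma swapHom_injective : Function.Injective (swapHom K) := by
  rintro ⟨a, b⟩ ⟨c, d⟩ h
  have h' : (b, a) = (d, c) := h
  simp only [Prod.mk.injEq] at h' ⊢
  exact ⟨h'.2, h'.1⟩

omit [Finite K] in
lemma mem_swap {S : Sublattice (K × K)} {x y : K} :
    (x, y) ∈ S.map (swapHom K) ↔ (y, x) ∈ S := by
  constructor
  · rintro ⟨⟨a, b⟩, h, h'⟩
    have h'' : (b, a) = (x, y) := h'
    simp only [Prod.mk.injEq] at h''
    rw [← h''.1, ← h''.2]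
    exact h
  · intro h
    exact ⟨(y, x), h, rfl⟩

lemma map_yy {D D' : Type*} [Lattice D] [Lattice D'] (φ : D → D')
    (hsup : ∀ s t, φ (s ⊔ t) = φ s ⊔ φ t) (hinf : ∀ s t, φ (s ⊓ t) = φ s ⊓ φ t) (x y z : D)
    (n : ℕ) : φ (yy x y z n) = yy (φ x) (φ y) (φ z) n := by
  induction n generalizing y z with
  | zero => rfl
  | succ n ih =>
    change φ (y ⊓ (x ⊔ yy x z y n)) = φ y ⊓ (φ x ⊔ yy (φ x) (φ z) (φ y) n)
    rw [hinf, hsup, ih]

/-- The law for finite lattices. -/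
theorem finite_law (G : Good K) (hX : IsDiag X) (hY : IsDiag Y) (hZ : IsDiag Z) :
    yy X Y Z 4 ≤ X ⊔ (Y ⊓ Z) := by
  rintro ⟨x, y⟩ h
  have hR : IsDiag (X ⊔ (Y ⊓ Z)) := hX.sup
  have hd : ∀ {S : Sublattice (K × K)}, IsDiag S → IsDiag (S.map (swapHom K)) :=
    fun h x => mem_swap.mpr (h x)
  have h1 : fm (X ⊔ (Y ⊓ Z)) y ≤ x :=
    (fm_main G hX hY hZ y).trans (fm_le (hX.yy hY hZ _) h)
  have h2 : fm ((X ⊔ (Y ⊓ Z)).map (swapHom K)) x ≤ y := by
    rw [Sublattice.map_sup, Sublattice.map_inf _ _ _ swapHom_injective]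
    refine (fm_main G (hd hX) (hd hY) (hd hZ) x).trans
      (fm_le ((hd hX).yy (hd hY) (hd hZ) _) ?_)
    have e := map_yy (Sublattice.map (swapHom K)) (fun _ _ => Sublattice.map_sup _ _ _)
      (fun _ _ => Sublattice.map_inf _ _ _ swapHom_injective) X Y Z 4
    rw [← e]
    exact mem_swap.mpr h
  have h3 := fm_mem hR y
  have h4 := mem_swap.mp (fm_mem (hd hR) x)
  have h5 := (X ⊔ (Y ⊓ Z)).sup_mem h3 (hR x)
  have h6 := (X ⊔ (Y ⊓ Z)).sup_mem h4 (hR y)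
  have h7 := (X ⊔ (Y ⊓ Z)).inf_mem h5 h6
  simp only [Prod.mk_sup_mk, Prod.mk_inf_mk, sup_eq_right.mpr h1, sup_eq_right.mpr h2] at h7
  simpa using h7

end main

end Pool.Agent.H7.DiagLat
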