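import Mathlib
import Pool.Agent.H7.DiagLat.Defs

/-! The lattices `N₅` and `M₃`. -/

set_option autoImplicit false

namespace Pool.Agent.H7.DiagLat

/-- The pentagon: `zero < a < c < one`, `zero < b < one`. -/
inductive N5 : Type
  | zero | a | b | c | one
  deriving DecidableEq, Fintype

namespace N5

/-- Join in the pentagon. -/
def sup : N5 → N5 → N5
  | zero, y => y
  | x, zero => x
  | one, _ => one
  | _, one => one
  | a, a => a
  | a, b => one
  | a, c => c
  | b, a => one
  | b, b => b
  | b, c => one
  | c, a => c
  | c, b => one
  | c, c => c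

/-- Meet in the pentagon. -/
def inf : N5 → N5 → N5
  | zero, _ => zero
  | _, zero => zero
  | one, y => y
  | x, one => x
  | a, a => a
  | a, b => zero
  | a, c => a
  | b, a => zero
  | b, b => b
  | b, c => zero
  | c, a => a
  | c, b => zero
  | c, c => c

instance : Max N5 := ⟨sup⟩
instance : Min N5 := ⟨inf⟩

instance : Lattice N5 :=
  Lattice.mk' (by decide) (by decide) (by decide) (by decide) (by decide) (by decide)

end N5

/-- The lattice with three atoms. -/
inductive M3 : Type
  | zero | a | b | c | one
  deriving DecidableEq, Fintype

namespace M3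

/-- Join. -/
def sup : M3 → M3 → M3
  | zero, y => y
  | x, zero => x
  | one, _ => one
  | _, one => one
  | a, a => a
  | b, b => b
  | c, c => c
  | _, _ => one

/-- Meet. -/
def inf : M3 → M3 → M3
  | zero, _ => zero
  | _, zero => zero
  | one, y => y
  | x, one => x
  | a, a => a
  | b, b => b
  | c, c => c
  | _, _ => zero

instance : Max M3 := ⟨sup⟩
instance : Min M3 := ⟨inf⟩

instance : Lattice M3 :=
  Lattice.mk' (by decide) (by decide) (by decide) (by decide) (by decide) (by decide)

end M3

end Pool.Agent.H7.DiagLat
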