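import Mathlib
import Pool.Agent.H7.DiagLat.Lattices
import Pool.Agent.H7.DiagLat.Finite

/-! Reduction to finite lattices. -/

set_option autoImplicit false

namespace Pool.Agent.H7.DiagLat

/-- The identities of the pentagon. -/
def idN5 : Set (Term × Term) := {e | Satisfies N5 e}

section identities

variable {L : Type*} [Lattice L]

lemma n5_i1 : ∀ c x y z w : N5, c ⊓ (x ⊔ y) ⊓ (z ⊔ w) ⊔ (
    (c ⊓ x) ⊔ (c ⊓ y) ⊔ ((c ⊓ z) ⊔ (c ⊓ w)) ⊔
      ((c ⊓ ((x ⊓ z) ⊔ (y ⊓ w))) ⊔ (c ⊓ ((x ⊓ w) ⊔ (y ⊓ z))))) =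
    (c ⊓ x) ⊔ (c ⊓ y) ⊔ ((c ⊓ z) ⊔ (c ⊓ w)) ⊔
      ((c ⊓ ((x ⊓ z) ⊔ (y ⊓ w))) ⊔ (c ⊓ ((x ⊓ w) ⊔ (y ⊓ z)))) := by
  decide +kernel

lemma n5_i3 : ∀ c u v x y : N5, c ⊓ ((u ⊓ (x ⊔ y)) ⊔ v) ⊔
    ((c ⊓ u) ⊔ (c ⊓ v) ⊔ ((c ⊓ ((u ⊓ x) ⊔ v)) ⊔ (c ⊓ ((u ⊓ y) ⊔ v)))) =
    (c ⊓ u) ⊔ (c ⊓ v) ⊔ ((c ⊓ ((u ⊓ x) ⊔ v)) ⊔ (c ⊓ ((u ⊓ y) ⊔ v))) := by
  decide +kernel

lemma n5_sd : ∀ x y z : N5, x ⊓ (y ⊔ z) ⊔ (y ⊔ (x ⊓ (z ⊔ (x ⊓ y)))) =
    y ⊔ (x ⊓ (z ⊔ (x ⊓ y))) := by
  decide +kernel

/-- Assignments of five variables. -/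
def five {D : Type*} (a b c d e : D) : ℕ → D
  | 0 => a
  | 1 => b
  | 2 => c
  | 3 => d
  | _ => e

open Term in
lemma good_of_inVariety (h : InVariety idN5 L) : Good L where
  i1 := by
    intro c x y z w
    let rhs : Term := sup (sup (sup (inf (var 0) (var 1)) (inf (var 0) (var 2)))
      (sup (inf (var 0) (var 3)) (inf (var 0) (var 4))))
      (sup (inf (var 0) (sup (inf (var 1) (var 3)) (inf (var 2) (var 4))))
        (inf (var 0) (sup (inf (var 1) (var 4)) (inf (var 2) (var 3)))))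
    let lhs : Term := inf (inf (var 0) (sup (var 1) (var 2))) (sup (var 3) (var 4))
    have h1 : Satisfies L (sup lhs rhs, rhs) := by
      apply h
      intro v
      exact n5_i1 (v 0) (v 1) (v 2) (v 3) (v 4)
    have h2 := h1 (five c x y z w)
    exact sup_eq_right.mp h2
  i3 := by
    intro c u v x y
    let rhs : Term := sup (sup (inf (var 0) (var 1)) (inf (var 0) (var 2)))
      (sup (inf (var 0) (sup (inf (var 1) (var 3)) (var 2)))
        (inf (var 0) (sup (inf (var 1) (var 4)) (var 2))))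
    let lhs : Term := inf (var 0) (sup (inf (var 1) (sup (var 3) (var 4))) (var 2))
    have h1 : Satisfies L (sup lhs rhs, rhs) := by
      apply h
      intro v
      exact n5_i3 (v 0) (v 1) (v 2) (v 3) (v 4)
    have h2 := h1 (five c u v x y)
    exact sup_eq_right.mp h2
  sd := by
    intro x y z
    let rhs : Term := sup (var 1) (inf (var 0) (sup (var 2) (inf (var 0) (var 1))))
    let lhs : Term := inf (var 0) (sup (var 1) (var 2))
    have h1 : Satisfies L (sup lhs rhs, rhs) := by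
      apply h
      intro v
      exact n5_sd (v 0) (v 1) (v 2)
    have h2 := h1 (five x y z x x)
    exact sup_eq_right.mp h2

end identities

section locallyFinite

/-- Renaming of variables. -/
def Term.rename (ρ : ℕ → ℕ) : Term → Term
  | .var n => .var (ρ n)
  | .inf s t => .inf (s.rename ρ) (t.rename ρ)
  | .sup s t => .sup (s.rename ρ) (t.rename ρ)

lemma Term.eval_rename {L : Type*} [Lattice L] (ρ : ℕ → ℕ) (v : ℕ → L) (t : Term) :
    (t.rename ρ).eval v = t.eval (fun n => v (ρ n)) := by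
  induction t with
  | var n => rfl
  | inf s t hs ht => simp only [Term.rename, Term.eval, hs, ht]
  | sup s t hs ht => simp only [Term.rename, Term.eval, hs, ht]

variable {L : Type*} [Lattice L]

lemma eval_sublattice (K : Sublattice L) (v : ℕ → K) (t : Term) :
    ((t.eval v : K) : L) = t.eval (fun n => (v n : L)) := by
  induction t with
  | var n => rfl
  | inf s t hs ht => simp only [Term.eval, Sublattice.coe_inf, hs, ht]
  | sup s t hs ht => simp only [Term.eval, Sublattice.coe_sup, hs, ht]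

lemma inVariety_sublattice {E : Set (Term × Term)} (h : InVariety E L) (K : Sublattice L) :
    InVariety E K := by
  intro e he v
  apply Subtype.ext
  rw [eval_sublattice, eval_sublattice]
  exact h e he _

/-- The sublattice of values of terms. -/
def values (v : ℕ → L) : Sublattice L where
  carrier := Set.range (fun t : Term => t.eval v)
  supClosed' := by
    rintro _ ⟨s, rfl⟩ _ ⟨t, rfl⟩
    exact ⟨Term.sup s t, rfl⟩
  infClosed' := by
    rintro _ ⟨s, rfl⟩ _ ⟨t, rfl⟩
    exact ⟨Term.inf s t, rfl⟩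

lemma exists_finite_sublattice (h : InVariety idN5 L) {X : Set L} (hX : X.Finite) :
    ∃ K : Sublattice L, (K : Set L).Finite ∧ X ⊆ K := by
  classical
  rcases X.eq_empty_or_nonempty with rfl | hne
  · exact ⟨⊥, by simp, by simp⟩
  · have hfin : Finite X := hX
    obtain ⟨n, ⟨e⟩⟩ := Finite.exists_equiv_fin X
    have hn : 0 < n := by
      obtain ⟨x, hx⟩ := hne
      exact (e ⟨x, hx⟩).pos
    let r : ℕ → Fin n := fun m => ⟨m % n, Nat.mod_lt m hn⟩
    have hr : ∀ i : Fin n, r i.val = i := fun i => Fin.ext (Nat.mod_eq_of_lt i.isLt)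
    let g : Fin n → L := fun i => ((e.symm i : X) : L)
    let v : ℕ → L := fun m => g (r m)
    let Φ : Term → ((Fin n → N5) → N5) := fun t u => t.eval (fun m => u (r m))
    have key : ∀ s t : Term, Φ s = Φ t → s.eval v = t.eval v := by
      intro s t hst
      have h1 : Satisfies L (s.rename (fun m => (r m).val), t.rename (fun m => (r m).val)) := by
        apply h
        intro w
        change (s.rename _).eval w = (t.rename _).eval w
        rw [Term.eval_rename, Term.eval_rename]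
        exact congrFun hst (fun i => w i.val)
      have h2 := h1 v
      change (s.rename _).eval v = (t.rename _).eval v at h2
      rw [Term.eval_rename, Term.eval_rename] at h2
      have h3 : (fun m => v (r m).val) = v := by
        funext m
        change g (r (r m).val) = g (r m)
        rw [hr]
      rwa [h3] at h2
    refine ⟨values v, ?_, ?_⟩
    · have h1 : (values v : Set L) ⊆ Set.range (fun y : Set.range Φ => (y.2.choose).eval v) := by
        rintro _ ⟨t, rfl⟩
        refine ⟨⟨Φ t, t, rfl⟩, ?_⟩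
        exact key _ _ (Exists.choose_spec (⟨t, rfl⟩ : ∃ s, Φ s = Φ t))
      exact (Set.finite_range _).subset h1
    · intro x hx
      refine ⟨Term.var (e ⟨x, hx⟩).val, ?_⟩
      change g (r (e ⟨x, hx⟩).val) = x
      rw [hr]
      change ((e.symm (e ⟨x, hx⟩) : X) : L) = x
      rw [Equiv.symm_apply_apply]

end locallyFinite

section limit

variable {L : Type*} [Lattice L]

/-- `S` is the union of the increasing family `F K`, `K` a finite sublattice. -/
structure IsLim (F : Sublattice L → Sublattice (L × L)) (S : Sublattice (L × L)) : Prop where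
  mono : ∀ K K', K ≤ K' → F K ≤ F K'
  mem : ∀ p ∈ S, ∃ K : Sublattice L, (K : Set L).Finite ∧ p ∈ F K

variable (h : InVariety idN5 L)

include h in
lemma exists_common {K K' : Sublattice L} (hK : (K : Set L).Finite) (hK' : (K' : Set L).Finite) :
    ∃ K'' : Sublattice L, (K'' : Set L).Finite ∧ K ≤ K'' ∧ K' ≤ K'' := by
  obtain ⟨K'', h1, h2⟩ := exists_finite_sublattice h (hK.union hK')
  exact ⟨K'', h1, fun x hx => h2 (Or.inl hx), fun x hx => h2 (Or.inr hx)⟩

variable {F G : Sublattice L → Sublattice (L × L)} {S T : Sublattice (L × L)}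

include h in
lemma IsLim.inf (hF : IsLim F S) (hG : IsLim G T) : IsLim (fun K => F K ⊓ G K) (S ⊓ T) where
  mono K K' hK := inf_le_inf (hF.mono K K' hK) (hG.mono K K' hK)
  mem := by
    rintro p ⟨hp, hp'⟩
    obtain ⟨K, hK, h1⟩ := hF.mem p hp
    obtain ⟨K', hK', h1'⟩ := hG.mem p hp'
    obtain ⟨K'', h2, h3, h4⟩ := exists_common h hK hK'
    exact ⟨K'', h2, hF.mono _ _ h3 h1, hG.mono _ _ h4 h1'⟩

include h in
lemma IsLim.sup (hF : IsLim F S) (hG : IsLim G T) : IsLim (fun K => F K ⊔ G K) (S ⊔ T) where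
  mono K K' hK := sup_le_sup (hF.mono K K' hK) (hG.mono K K' hK)
  mem := by
    let U : Sublattice (L × L) :=
      { carrier := {p | ∃ K : Sublattice L, (K : Set L).Finite ∧ p ∈ F K ⊔ G K}
        supClosed' := by
          rintro p ⟨K, hK, hp⟩ q ⟨K', hK', hq⟩
          obtain ⟨K'', h2, h3, h4⟩ := exists_common h hK hK'
          exact ⟨K'', h2, (F K'' ⊔ G K'').sup_mem
            (sup_le_sup (hF.mono _ _ h3) (hG.mono _ _ h3) hp)
            (sup_le_sup (hF.mono _ _ h4) (hG.mono _ _ h4) hq)⟩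
        infClosed' := by
          rintro p ⟨K, hK, hp⟩ q ⟨K', hK', hq⟩
          obtain ⟨K'', h2, h3, h4⟩ := exists_common h hK hK'
          exact ⟨K'', h2, (F K'' ⊔ G K'').inf_mem
            (sup_le_sup (hF.mono _ _ h3) (hG.mono _ _ h3) hp)
            (sup_le_sup (hF.mono _ _ h4) (hG.mono _ _ h4) hq)⟩ }
    have h1 : S ⊔ T ≤ U := by
      apply sup_le
      · intro p hp
        obtain ⟨K, hK, h1⟩ := hF.mem p hp
        exact ⟨K, hK, (le_sup_left : F K ≤ F K ⊔ G K) h1⟩
      · intro p hp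
        obtain ⟨K, hK, h1⟩ := hG.mem p hp
        exact ⟨K, hK, (le_sup_right : G K ≤ F K ⊔ G K) h1⟩
    intro p hp
    exact h1 hp

include h in
lemma isLim_base (S : Sublattice (L × L)) : IsLim (fun K => S ⊓ K.prod K) S where
  mono K K' hK := inf_le_inf le_rfl (Sublattice.prod_mono hK hK)
  mem := by
    rintro ⟨x, y⟩ hp
    obtain ⟨K, h1, h2⟩ := exists_finite_sublattice h (Set.toFinite {x, y})
    exact ⟨K, h1, hp, h2 (by simp), h2 (by simp)⟩

include h in
lemma IsLim.yy {X Y Z : Sublattice (L × L)} {F G H : Sublattice L → Sublattice (L × L)}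
    (hX : IsLim F X) (hY : IsLim G Y) (hZ : IsLim H Z) (n : ℕ) :
    IsLim (fun K => yy (F K) (G K) (H K) n) (yy X Y Z n) := by
  induction n generalizing Y Z G H with
  | zero => exact hY
  | succ n ih => exact IsLim.inf h hY (IsLim.sup h hX (ih hZ hY))

/-- The inclusion `K × K → L × L`. -/
def incl (K : Sublattice L) : LatticeHom (K × K) (L × L) where
  toFun p := ((p.1 : L), (p.2 : L))
  map_sup' _ _ := rfl
  map_inf' _ _ := rfl

lemma incl_injective (K : Sublattice L) : Function.Injective (incl K) := by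
  rintro ⟨a, b⟩ ⟨c, d⟩ h
  have h' : ((a : L), (b : L)) = ((c : L), (d : L)) := h
  simp only [Prod.mk.injEq] at h' ⊢
  exact ⟨Subtype.ext h'.1, Subtype.ext h'.2⟩

lemma map_comap_incl (K : Sublattice L) (S : Sublattice (L × L)) :
    (S.comap (incl K)).map (incl K) = S ⊓ K.prod K := by
  apply Sublattice.ext
  rintro ⟨x, y⟩
  constructor
  · rintro ⟨⟨a, b⟩, hab, h'⟩
    have h'' : ((a : L), (b : L)) = (x, y) := h'
    simp only [Prod.mk.injEq] at h''
    obtain ⟨rfl, rfl⟩ := h''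
    exact ⟨hab, a.2, b.2⟩
  · rintro ⟨h1, h2, h3⟩
    exact ⟨(⟨x, h2⟩, ⟨y, h3⟩), h1, rfl⟩

include h in
/-- The law for all lattices in the variety generated by the pentagon. -/
theorem law {X Y Z : Sublattice (L × L)} (hX : IsDiag X) (hY : IsDiag Y) (hZ : IsDiag Z) :
    yy X Y Z 4 ≤ X ⊔ (Y ⊓ Z) := by
  intro p hp
  obtain ⟨K, hK, hpK⟩ := (IsLim.yy h (isLim_base h X) (isLim_base h Y) (isLim_base h Z) 4).mem p hp
  have hfin : Finite K := hK
  have G := good_of_inVariety (inVariety_sublattice h K)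
  have hd : ∀ {S : Sublattice (L × L)}, IsDiag S → IsDiag (S.comap (incl K)) :=
    fun hS x => hS (x : L)
  have h1 := finite_law G (hd hX) (hd hY) (hd hZ)
  have h2 := Sublattice.map_mono (f := incl K) h1
  have e := map_yy (Sublattice.map (incl K)) (fun _ _ => Sublattice.map_sup _ _ _)
      (fun _ _ => Sublattice.map_inf _ _ _ (incl_injective K))
      (X.comap (incl K)) (Y.comap (incl K)) (Z.comap (incl K)) 4
  rw [e, Sublattice.map_sup, Sublattice.map_inf _ _ _ (incl_injective K), map_comap_incl,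
    map_comap_incl, map_comap_incl] at h2
  have h3 : X ⊓ K.prod K ⊔ (Y ⊓ K.prod K ⊓ (Z ⊓ K.prod K)) ≤ X ⊔ (Y ⊓ Z) :=
    sup_le_sup inf_le_left (inf_le_inf inf_le_left inf_le_left)
  exact h3 (h2 hpK)

end limit

section identity

/-- The terms of the iteration. -/
def yyT (x y z : Term) : ℕ → Term
  | 0 => y
  | n + 1 => .inf y (.sup x (yyT x z y n))

lemma eval_yyT {L : Type*} [Lattice L] (v : ℕ → L) (x y z : Term) (n : ℕ) :
    (yyT x y z n).eval v = yy (x.eval v) (y.eval v) (z.eval v) n := by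
  induction n generalizing y z with
  | zero => rfl
  | succ n ih => simp only [yyT, yy, Term.eval, ih]

/-- The right side `x ∨ (y ∧ z)`. -/
def rhsT : Term := .sup (.var 0) (.inf (.var 1) (.var 2))

/-- The identity `y₄ ∨ (x ∨ (y ∧ z)) = x ∨ (y ∧ z)`. -/
def ident : Term × Term := (.sup (yyT (.var 0) (.var 1) (.var 2) 4) rhsT, rhsT)

lemma ident_M3 : ¬ Satisfies M3 ident := by
  intro h
  have := h (five M3.a M3.b M3.c M3.a M3.a)
  revert this
  decide

lemma ident_Delta {L : Type*} [Lattice L] (h : InVariety idN5 L) : Satisfies (Delta L) ident := by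
  intro v
  have hd : ∀ S : Delta L, IsDiag S.1 := fun S x => S.2 (rfl : (x, x) ∈ diagonal L)
  have h1 := law h (hd (v 0)) (hd (v 1)) (hd (v 2))
  have h2 : (yy (v 0) (v 1) (v 2) 4 : Delta L) ≤ v 0 ⊔ (v 1 ⊓ v 2) := by
    have e := map_yy (fun S : Delta L => S.1) (fun _ _ => rfl) (fun _ _ => rfl) (v 0) (v 1) (v 2) 4
    change (yy (v 0) (v 1) (v 2) 4 : Delta L).1 ≤ _
    rw [e]
    exact h1
  have h3 := eval_yyT v (.var 0) (.var 1) (.var 2) 4
  change (yyT (.var 0) (.var 1) (.var 2) 4).eval v ⊔ (v 0 ⊔ (v 1 ⊓ v 2)) = v 0 ⊔ (v 1 ⊓ v 2)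
  rw [h3]
  exact sup_eq_right.mpr h2

end identity

end Pool.Agent.H7.DiagLat
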